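import Pool.Agent.K4H56.CG.Upper

/-!
# The smallest maximum size of an odd induced subgraph of a cograph without isolated vertices

For every `n ≥ 2` the minimum `m(n)` of `mos(G)` over the cographs `G` on `n` vertices without
isolated vertices is `2 ⌈n / 6⌉`.

Lower bound: `mos` is even and at least `n / 3`. By induction on the vertex set: a cograph with at
least two vertices splits into two parts with no edges between them, to which the induction
hypothesis applies, or into two parts with all edges between them; in the latter case an edge is
enough for at most six vertices, and for more vertices the partition of both parts (made of odd size)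
into a set inducing an odd graph and a set inducing an even graph (Gallai) gives an odd induced
subgraph on at least `(n - 2) / 2` vertices.
Upper bound: disjoint unions of `⌈n / 6⌉` induced subgraphs of `K_{2,2,2}` with at least two vertices.
-/

set_option autoImplicit false

namespace Pool.Agent.Results.MP_007251_co.MinimumIsTwiceCeil

open Pool.Agent.K4H56.CG

/-- For every `n ≥ 2` the smallest value of `mos(G)` over the cographs `G` on `n` vertices without
isolated vertices is `2 ⌈n / 6⌉`. (`(n + 5) / 6` is the integer `⌈n / 6⌉`.) -/
theorem result (n : ℕ) (hn : 2 ≤ n) :
    IsLeast {m : ℕ | ∃ G : SimpleGraph (Fin n), IsCograph G ∧ NoIsolated G ∧ mos G = m}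
      (2 * ((n + 5) / 6)) := by
  constructor
  · exact ⟨ext n ((n + 5) / 6), (isCograph_iff _).2 (ext_fourPoint _ _), ext_noIsolated hn,
      le_antisymm (upper_mos hn) (lower_mos (ext_fourPoint _ _) (ext_noIsolated hn))⟩
  · rintro m ⟨G, h1, h2, rfl⟩
    exact lower_mos ((isCograph_iff _).1 h1) h2

end Pool.Agent.Results.MP_007251_co.MinimumIsTwiceCeil
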